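import Pool.Agent.H17.NO.Field

/-!
# Almost nonnegative curvature operators: the mirror `R ↦ -R` of `Pool/Agent/H17/NO/`
-/

set_option autoImplicit false
set_option linter.unusedSectionVars false

namespace Pool.Agent.Helper60.HP

open Finset Pool.Agent.W666.GB Module MeasureTheory
open Pool.Agent.H17.NO (OpNonpos OpLe SecLe curvForm pfaff Nondeg HasFlatPlane bnd epsm)

section defs

variable {V : Type} [NormedAddCommGroup V] [InnerProductSpace ℝ V]

/-- The curvature operator of `R` is nonnegative: the quadratic form of `R` is nonnegative on all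
bivectors `∑ a, x a ∧ y a`. -/
def OpNonneg (R : V → V → V → V → ℝ) : Prop :=
  ∀ (n : ℕ) (x y : Fin n → V), 0 ≤ ∑ a, ∑ b, R (x a) (y a) (x b) (y b)

/-- The eigenvalues of the curvature operator of `R` are at least `b`. -/
def OpGe (R : V → V → V → V → ℝ) (b : ℝ) : Prop :=
  ∀ (n : ℕ) (x y : Fin n → V),
    b * ∑ a, ∑ c, (inner ℝ (x a) (x c) * inner ℝ (y a) (y c) -
      inner ℝ (x a) (y c) * inner ℝ (y a) (x c)) ≤ ∑ a, ∑ c, R (x a) (y a) (x c) (y c)

/-- All sectional curvatures of `R` are at least `b`. -/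
def SecGe (R : V → V → V → V → ℝ) (b : ℝ) : Prop :=
  ∀ x y : V, ‖x‖ = 1 → ‖y‖ = 1 → inner ℝ x y = 0 → b ≤ R x y x y

/-- the negative of a tensor -/
def neg (R : V → V → V → V → ℝ) (x y z w : V) : ℝ := -R x y z w

theorem neg_alg {R : V → V → V → V → ℝ} (hR : AlgCurv R) : AlgCurv (neg R) where
  add x x' y z w := by simp only [neg]; rw [hR.add]; ring
  smul t x y z w := by simp only [neg]; rw [hR.smul]; ring
  anti x y z w := by simp only [neg]; rw [hR.anti]
  pair x y z w := by simp only [neg]; rw [hR.pair]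
  bianchi x y z w := by
    simp only [neg]
    linear_combination -hR.bianchi x y z w

theorem neg_op {R : V → V → V → V → ℝ} (h : OpNonneg R) : OpNonpos (neg R) := by
  intro n x y
  have := h n x y
  simp only [neg, Finset.sum_neg_distrib]
  linarith

theorem neg_opLe {R : V → V → V → V → ℝ} {b : ℝ} (h : OpGe R (-b)) : OpLe (neg R) b := by
  intro n x y
  have := h n x y
  simp only [neg, Finset.sum_neg_distrib]
  linarith

theorem neg_sec {R : V → V → V → V → ℝ} {b : ℝ} (h : SecGe R b) : SecLe (neg R) (-b) := by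
  intro x y hx hy hxy
  have := h x y hx hy hxy
  simp only [neg]
  linarith

theorem curvForm_neg (R : V → V → V → V → ℝ) {k : ℕ} (x y : Fin k → V) :
    curvForm (neg R) x y = fun v w => -curvForm R x y v w := by
  funext v w
  simp only [curvForm, neg, Finset.sum_neg_distrib]

theorem nondeg_neg (φ : V → V → ℝ) : Nondeg (fun v w => -φ v w) ↔ Nondeg φ := by
  unfold Nondeg
  simp only [ne_eq, neg_eq_zero]

theorem deg_neg (R : V → V → V → V → ℝ) :
    (∀ (k : ℕ) (x y : Fin k → V), ¬ Nondeg (curvForm (neg R) x y)) ↔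
      ∀ (k : ℕ) (x y : Fin k → V), ¬ Nondeg (curvForm R x y) := by
  simp only [curvForm_neg, nondeg_neg]

theorem flat_neg {R : V → V → V → V → ℝ} (h : HasFlatPlane (neg R)) : HasFlatPlane R := by
  obtain ⟨x, y, hx, hy, hxy, h0⟩ := h
  exact ⟨x, y, hx, hy, hxy, by simpa [neg] using h0⟩

end defs

section point

variable {V : Type} [NormedAddCommGroup V] [InnerProductSpace ℝ V] {m : ℕ}
variable (e : OrthonormalBasis (Fin m × Bool) ℝ V)

theorem gbc_neg (R : V → V → V → V → ℝ) : (-1) ^ m * gbc e (neg R) = gbc e R := by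
  unfold gbc neg
  rw [mul_left_comm]
  congr 1
  rw [Finset.mul_sum]
  refine Finset.sum_congr rfl fun σ _ => ?_
  rw [Finset.mul_sum]
  refine Finset.sum_congr rfl fun τ _ => ?_
  rw [Finset.prod_neg, Finset.card_univ, Fintype.card_fin]
  have h1 : ((-1 : ℝ) ^ m) * (-1) ^ m = 1 := by
    rw [← mul_pow]; norm_num
  linear_combination (((Equiv.Perm.sign σ : ℤ) : ℝ) * ((Equiv.Perm.sign τ : ℤ) : ℝ) *
    ∏ b : Fin m, R (e (σ (b, false))) (e (σ (b, true))) (e (τ (b, false))) (e (τ (b, true)))) * h1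

theorem gbc_neg_zero (R : V → V → V → V → ℝ) : gbc e (neg R) = 0 ↔ gbc e R = 0 := by
  rw [← gbc_neg e R, mul_eq_zero, or_iff_right (pow_ne_zero m (by norm_num : (-1 : ℝ) ≠ 0))]

theorem pfaff_neg (φ : V → V → ℝ) :
    pfaff e (fun v w => -φ v w) ^ 2 = pfaff e φ ^ 2 := by
  have h : pfaff e (fun v w => -φ v w) = (-1) ^ m * pfaff e φ := by
    unfold pfaff
    rw [mul_left_comm]
    congr 1
    rw [Finset.mul_sum]
    refine Finset.sum_congr rfl fun σ _ => ?_
    rw [Finset.prod_neg, Finset.card_univ, Fintype.card_fin]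
    ring
  rw [h, mul_pow, ← pow_mul, mul_comm m 2, pow_mul]
  norm_num

variable {R : V → V → V → V → ℝ}

theorem point (hm : 1 ≤ m) (hR : AlgCurv R) {κ : ℝ} (hκ : 0 ≤ κ) (hs : SecGe R κ) :
    (OpNonneg R → κ ^ m ≤ bnd m * gbc e R) ∧
    (OpGe R (-(epsm m * κ)) → κ ^ m ≤ 2 * bnd m * gbc e R) := by
  have hs' := neg_sec hs
  refine ⟨fun hO => ?_, fun hO => ?_⟩
  · have := Pool.Agent.H17.NO.point_quant e (neg_alg hR) (neg_op hO) hκ hs'
    rwa [Pool.Agent.H17.NO.bnd_eq, gbc_neg] at this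
  · have := Pool.Agent.H17.NO.point_eps hm e (neg_alg hR) hκ (neg_opLe hO) hs'
    rw [Pool.Agent.H17.NO.bnd_eq, gbc_neg] at this
    linarith

theorem crit (hR : AlgCurv R) (hO : OpNonneg R) :
    gbc e R = 0 ↔ ∀ (k : ℕ) (x y : Fin k → V), ¬ Nondeg (curvForm R x y) := by
  rw [← gbc_neg_zero, Pool.Agent.H17.NO.crit e (neg_alg hR) (neg_op hO)]
  simp only [curvForm_neg, nondeg_neg]

theorem flat (hR : AlgCurv R) (hO : OpNonneg R) (h : gbc e R = 0) : HasFlatPlane R :=
  flat_neg (Pool.Agent.H17.NO.flat_of_zero e (neg_alg hR) (neg_op hO)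
    ((gbc_neg_zero e R).2 h))

theorem pfaff_bound (hR : AlgCurv R) (hO : OpNonneg R) {k : ℕ} (x y : Fin k → V) :
    pfaff e (curvForm R x y) ^ 2 ≤ (2 * Real.pi) ^ m / m.factorial *
      (∑ s, ∑ t, R (x s) (y s) (x t) (y t)) ^ m * gbc e R := by
  have h := Pool.Agent.H17.NO.pfaff_bound e (neg_alg hR) (neg_op hO) x y
  rw [curvForm_neg, pfaff_neg, gbc_neg] at h
  simpa only [neg, Finset.sum_neg_distrib, neg_neg] using h

end point

section field

variable {m : ℕ} {M : Type}

/-- the negative field -/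
def negField (K : CurvField m M) : CurvField m M where
  V := K.V
  ng := K.ng
  ip := K.ip
  e := K.e
  R := fun p => neg (K.R p)
  curv := fun p => neg_alg (K.curv p)

theorem negField_gb (K : CurvField m M) (p : M) :
    (negField K).gb p = (-1) ^ m * K.gb p := by
  have h1 : (-1) ^ m * (negField K).gb p = K.gb p := gbc_neg (K.e p) (K.R p)
  rw [← h1, ← mul_assoc, ← mul_pow]
  norm_num

variable [MeasurableSpace M]

theorem negField_int (μ : Measure M) (K : CurvField m M) :
    (-1) ^ m * ∫ p, (negField K).gb p ∂μ = ∫ p, K.gb p ∂μ := by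
  rw [← integral_const_mul]
  exact integral_congr_ae (Filter.Eventually.of_forall fun p => gbc_neg (K.e p) (K.R p))

theorem negField_integrable {μ : Measure M} {K : CurvField m M} (h : Integrable K.gb μ) :
    Integrable (negField K).gb μ := by
  have : (negField K).gb = fun p => (-1) ^ m * K.gb p := funext fun p => negField_gb K p
  rw [this]
  exact h.const_mul _

theorem field_eps (hm : 1 ≤ m) (μ : Measure M) (K : CurvField m M) (κ : M → ℝ)
    (h : ∀ p, 0 ≤ κ p ∧ SecGe (K.R p) (κ p) ∧ OpGe (K.R p) (-(epsm m * κ p))) :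
    0 ≤ ∫ p, K.gb p ∂μ ∧
    (Integrable K.gb μ → ∫ p, κ p ^ m ∂μ ≤ 2 * bnd m * ∫ p, K.gb p ∂μ) ∧
    (Integrable K.gb μ → μ {p | 0 < κ p} ≠ 0 → 0 < ∫ p, K.gb p ∂μ) := by
  have h1 := Pool.Agent.H17.NO.field_eps hm μ (negField K) κ (fun p =>
    ⟨(h p).1, neg_sec (h p).2.1, neg_opLe (h p).2.2⟩)
  rw [negField_int] at h1
  exact ⟨h1.1, fun hi => h1.2.1 (negField_integrable hi),
    fun hi => h1.2.2 (negField_integrable hi)⟩

theorem field_crit (μ : Measure M) (K : CurvField m M) (h : ∀ p, OpNonneg (K.R p))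
    (hi : Integrable K.gb μ) :
    (∫ p, K.gb p ∂μ = 0 ↔
      ∀ᵐ p ∂μ, ∀ (k : ℕ) (x y : Fin k → K.V p), ¬ Nondeg (curvForm (K.R p) x y)) ∧
    (∫ p, K.gb p ∂μ = 0 → ∀ᵐ p ∂μ, HasFlatPlane (K.R p)) := by
  have h1 := Pool.Agent.H17.NO.field_crit μ (negField K) (fun p => neg_op (h p))
    (negField_integrable hi)
  have h2 : ∫ p, (negField K).gb p ∂μ = 0 ↔ ∫ p, K.gb p ∂μ = 0 := by
    rw [← negField_int μ K, mul_eq_zero,
      or_iff_right (pow_ne_zero m (by norm_num : (-1 : ℝ) ≠ 0))]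
  rw [h2] at h1
  refine ⟨h1.1.trans ?_, fun h3 => ?_⟩
  · constructor
    · intro h4
      filter_upwards [h4] with p hp
      exact (deg_neg (K.R p)).1 hp
    · intro h4
      filter_upwards [h4] with p hp
      exact (deg_neg (K.R p)).2 hp
  · filter_upwards [h1.2 h3] with p hp
    exact flat_neg hp

end field

end Pool.Agent.Helper60.HP
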